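import Pool.Agent.Helper27_R3M.Cns

/-!
# R3M: COM
-/

set_option autoImplicit false

namespace Pool.Agent.R3M.H27

open Pool.Agent.R3M Pool.Agent.R3M.Kit

variable {α : Type} [DecidableEq α]

section
variable (P : Finset α) (a l b : ℕ) (g d f z h e : ℕ → α)

theorem GG_right_zero (t : ℕ) :
    GG P l g d f z h e t 0 = CC P l b g d f z h e false t l := by
  unfold GG CC Y2 RY2
  simp

theorem GG_right_last (hb : 1 ≤ b) (t : ℕ) :
    GG P l g d f z h e t (b - 1) = CC P l b g d f z h e true t l := by
  unfold GG CC Y2 RY2
  have : b - 1 + 1 = b := by omega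
  rw [this]
  simp

theorem GG_left_zero (u : ℕ) :
    GG P l g d f z h e 0 u = DD P a l g d f z h e false 0 u := by
  unfold GG DD X1 RX1
  simp

theorem GG_left_last (ha : 1 ≤ a) (u : ℕ) :
    GG P l g d f z h e (a - 1) u = DD P a l g d f z h e true 0 u := by
  unfold GG DD X1 RX1
  have : a - 1 + 1 = a := by omega
  rw [this]
  simp

end

theorem com (vst : VstStmt) (adj : AdjStmt) (cgr : CgrStmt) (cst : CstStmt) (dst : DstStmt)
    (ttr : TtrStmt) : ComStmt := by
  intro α _ M N n P S a l b g d f z h e φ hS hP hC hφ
  have ha : 1 ≤ a := by have := hC.c1.two; omega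
  have hb : 1 ≤ b := by have := hC.c2.two; omega
  have hl : 1 ≤ l := hC.lpos
  have E1 := cgr α M N n P S a l b g d f z h e φ hS hP hC hφ
  have E2 := cst α M N n P S a l b g d f z h e φ false hS hP hC hφ
  have E3 := cst α M N n P S a l b g d f z h e φ true hS hP hC hφ
  have E4 := dst α M N n P S a l b g d f z h e φ false hS hP hC hφ
  have E5 := dst α M N n P S a l b g d f z h e φ true hS hP hC hφ
  have T00 := ttr α M N n P S a l b g d f z h e φ false false hS hP hC hφ
  have T01 := ttr α M N n P S a l b g d f z h e φ false true hS hP hC hφ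
  have T10 := ttr α M N n P S a l b g d f z h e φ true false hS hP hC hφ
  have T11 := ttr α M N n P S a l b g d f z h e φ true true hS hP hC hφ
  simp only [GG_right_zero P l b g d f z h e, GG_right_last P l b g d f z h e hb,
    GG_left_zero P a l g d f z h e, GG_left_last P a l g d f z h e ha] at E1
  simp only [CC_zero P a l b g d f z h e, CC_last P a l b g d f z h e ha] at E2 E3
  simp only [DD_zero P a l b g d f z h e, DD_last P a l b g d f z h e hb] at E4 E5
  obtain ⟨_, _, near, _⟩ := adj α M N P S a l b g d f z h e hC
  have hst : ∀ (σ τ : Bool) (i : ℕ), i ≤ l → CI M N n (TT P a l b g d f z h e σ τ i i) := by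
    intro σ τ i hi
    have hb0 : 0 < b := by omega
    have ha0 : 0 < a := by omega
    refine vst α M N n P S a l b g d f z h e i i _ _ _ _ hS hP hC (le_refl i) hi ?_ ?_
    · rcases Nat.eq_zero_or_pos i with h0 | h0
      · left
        refine ⟨h0, ?_⟩
        subst h0
        cases σ
        · exact ⟨0, ha0, by simp [X1], by simp [RX1]⟩
        · exact ⟨a - 1, by omega, by simp [X1], by
            have : a - 1 + 1 = a := by omega
            rw [this]; simp [RX1]⟩
      · right
        have hi0 : i ≠ 0 := by omega
        refine ⟨h0, ?_⟩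
        cases σ
        · left; simp [X1, RX1, hi0]
        · right; simp [X1, RX1, hi0]
    · rcases Nat.eq_or_lt_of_le hi with h0 | h0
      · left
        refine ⟨h0, ?_⟩
        subst h0
        cases τ
        · exact ⟨0, hb0, by simp [Y2], by simp [RY2]⟩
        · exact ⟨b - 1, by omega, by simp [Y2], by
            have : b - 1 + 1 = b := by omega
            rw [this]; simp [RY2]⟩
      · right
        have hi0 : i ≠ l := by omega
        refine ⟨h0, ?_⟩
        cases τ
        · left; simp [Y2, RY2, hi0]
        · right; simp [Y2, RY2, hi0]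
  have A11 := clo_anti hφ (hst true true 0 (Nat.zero_le l)) (hst true true l (le_refl l))
    (near true true 0 l (Nat.zero_le l) (le_refl l))
  have A00 := clo_anti hφ (hst false false 0 (Nat.zero_le l)) (hst false false l (le_refl l))
    (near false false 0 l (Nat.zero_le l) (le_refl l))
  rw [A11, A00]
  linarith

end Pool.Agent.R3M.H27
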