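import Pool.Agent.R3M.Kit

/-!
# R3M: LCI and VBF
-/

set_option autoImplicit false

namespace Pool.Agent.R3M.H27

open Pool.Agent.R3M Pool.Agent.R3M.Kit

theorem lci : LciStmt := by
  intro α _ M I S e hI hS heS heI hn
  have h1 : M.Ind (insert e (I ∩ S)) :=
    M.sub hS (Finset.insert_subset heS Finset.inter_subset_right)
  obtain ⟨f, hf, hfX, hi⟩ := aug_one M hI Finset.inter_subset_left heI h1 (by
    intro h
    rw [h] at h1
    exact hn h1)
  exact ⟨f, hf, fun h => hfX (Finset.mem_inter.mpr ⟨hf, h⟩), hi⟩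

theorem vbf (lsp : LspStmt) : VbfStmt := by
  intro α _ M N n S I e f e3 f3 hS hI h2 hU hU3 hM hN hM3 hN3
  have hee : e ≠ e3 := by rintro rfl; exact hM hM3
  have heI := hU.2.1
  have heS := hU.1
  have hfI := hU.2.2.1
  have hfS := hU.2.2.2.1
  have he3I := hU3.2.1
  have he3S := hU3.1
  -- a second element of `I \ S`
  obtain ⟨f', hf', hne⟩ : ∃ f' ∈ I \ S, f' ≠ f := by
    obtain ⟨u, hu, v, hv, huv⟩ := Finset.one_lt_card.mp (show 1 < (I \ S).card by omega)
    by_cases h : u = f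
    · exact ⟨v, hv, fun hc => huv (h.trans hc.symm)⟩
    · exact ⟨u, hu, h⟩
  rw [Finset.mem_sdiff] at hf'
  have kM : M.Ind (insert e3 (insert e (I.erase f))) :=
    lsp α M I e f e3 heI hfI he3I hM hU.2.2.2.2.1 hM3
  have kN : N.Ind (insert e3 (insert e (I.erase f))) :=
    lsp α N I e f e3 heI hfI he3I hN hU.2.2.2.2.2 hN3
  have f'e : f' ≠ e := fun h => heI (h ▸ hf'.1)
  have f'e3 : f' ≠ e3 := fun h => he3I (h ▸ hf'.1)
  have fe : f ≠ e := fun h => heI (h ▸ hfI)
  have fe3 : f ≠ e3 := fun h => he3I (h ▸ hfI)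
  have hU3' : Up M N S I e3 f' := ⟨he3S, he3I, hf'.1, hf'.2,
    M.sub hM3 (Finset.insert_subset_insert _ (Finset.erase_subset _ _)),
    N.sub hN3 (Finset.insert_subset_insert _ (Finset.erase_subset _ _))⟩
  have hAc : CI M N n (insert e (I.erase f)) := up_ci hI hU
  have he3A : e3 ∉ insert e (I.erase f) := by
    rw [mem_exch]; rintro (h | ⟨_, h⟩)
    · exact hee h.symm
    · exact he3I h
  have hf'A : f' ∈ insert e (I.erase f) := mem_exch.mpr (Or.inr ⟨hne, hf'.1⟩)
  let J : Finset α := insert e3 ((insert e (I.erase f)).erase f')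
  have hJsub : J ⊆ insert e3 (insert e (I.erase f)) :=
    Finset.insert_subset_insert _ (Finset.erase_subset _ _)
  have hJB : J = insert e ((insert e3 (I.erase f')).erase f) := by
    ext u
    show u ∈ insert e3 ((insert e (I.erase f)).erase f') ↔
      u ∈ insert e ((insert e3 (I.erase f')).erase f)
    simp only [Finset.mem_insert, Finset.mem_erase]
    constructor
    · rintro (rfl | ⟨h1, h2 | ⟨h2, h3⟩⟩)
      · exact Or.inr ⟨fe3.symm, Or.inl rfl⟩
      · exact Or.inl h2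
      · exact Or.inr ⟨h2, Or.inr ⟨h1, h3⟩⟩
    · rintro (rfl | ⟨h1, h2 | ⟨h2, h3⟩⟩)
      · exact Or.inr ⟨f'e.symm, Or.inl rfl⟩
      · exact Or.inl h2
      · exact Or.inr ⟨h2, Or.inr ⟨h1, h3⟩⟩
  refine ⟨f, f', J, hU, hU3', ⟨M.sub kM hJsub, N.sub kN hJsub, ?_⟩, near_exch _ _ _, ?_, ?_, ?_, ?_⟩
  · rw [show J.card = (insert e (I.erase f)).card from card_exch he3A hf'A]; exact hAc.2.2
  · rw [hJB]; exact near_symm (near_exch _ _ _)
  · rw [show (J ∩ S).card = ((insert e (I.erase f)) ∩ S).card + 1 from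
      exch_level he3S he3A hf'.2, up_level hU]
  · refine Or.inl ⟨f', Or.inl ⟨hf'A, ?_⟩, hf'.2⟩
    show f' ∉ insert e3 ((insert e (I.erase f)).erase f')
    rw [mem_exch]; rintro (h | ⟨h, _⟩)
    · exact f'e3 h
    · exact h rfl
  · refine Or.inl ⟨f, Or.inr ⟨?_, ?_⟩, hfS⟩
    · exact mem_exch.mpr (Or.inr ⟨fun h => hne h.symm, hfI⟩)
    · show f ∉ insert e3 ((insert e (I.erase f)).erase f')
      rw [mem_exch]; rintro (h | ⟨_, h⟩)
      · exact fe3 h
      · rcases mem_exch.mp h with h | ⟨h, _⟩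
        · exact fe h
        · exact h rfl

end Pool.Agent.R3M.H27
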