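import Pool.Agent.R3M.Kit

/-!
# R3M, module MAI: the theorem for disjoint sets
-/

set_option autoImplicit false

namespace Pool.Agent.R3M.H27

open Pool.Agent.R3M Pool.Agent.R3M.Kit

variable {α : Type} [DecidableEq α]

theorem card_three {J S T U : Finset α} (hJ : J ⊆ S ∪ T ∪ U) (h1 : Disjoint S T)
    (h2 : Disjoint S U) (h3 : Disjoint T U) :
    J.card = (J ∩ S).card + (J ∩ T).card + (J ∩ U).card := by
  have e : J = (J ∩ S) ∪ (J ∩ T) ∪ (J ∩ U) := by
    ext u
    constructor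
    · intro hu
      have := hJ hu
      simp only [Finset.mem_union, Finset.mem_inter] at this ⊢
      tauto
    · intro hu
      simp only [Finset.mem_union, Finset.mem_inter] at hu
      tauto
  conv_lhs => rw [e]
  rw [Finset.card_union_of_disjoint, Finset.card_union_of_disjoint]
  · exact Finset.disjoint_of_subset_left Finset.inter_subset_right
      (Finset.disjoint_of_subset_right Finset.inter_subset_right h1)
  · rw [Finset.disjoint_union_left]
    exact ⟨Finset.disjoint_of_subset_left Finset.inter_subset_right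
      (Finset.disjoint_of_subset_right Finset.inter_subset_right h2),
      Finset.disjoint_of_subset_left Finset.inter_subset_right
      (Finset.disjoint_of_subset_right Finset.inter_subset_right h3)⟩

theorem count_glue {X Y I J S : Finset α} (hXY : Disjoint X Y) (hI : I ⊆ X) (hJ : J ⊆ Y) :
    ((I ∪ J) ∩ S).card = (I ∩ (S ∩ X)).card + (J ∩ (S ∩ Y)).card := by
  have e : (I ∪ J) ∩ S = (I ∩ (S ∩ X)) ∪ (J ∩ (S ∩ Y)) := by
    ext u
    simp only [Finset.mem_union, Finset.mem_inter]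
    constructor
    · rintro ⟨h | h, hS⟩
      · exact Or.inl ⟨h, hS, hI h⟩
      · exact Or.inr ⟨h, hS, hJ h⟩
    · rintro (⟨h, hS, _⟩ | ⟨h, hS, _⟩)
      · exact ⟨Or.inl h, hS⟩
      · exact ⟨Or.inr h, hS⟩
  rw [e, Finset.card_union_of_disjoint]
  exact Finset.disjoint_of_subset_left
    (Finset.inter_subset_right.trans Finset.inter_subset_right)
    (Finset.disjoint_of_subset_right (Finset.inter_subset_right.trans Finset.inter_subset_right)
      hXY)

theorem glue (hKth : KthStmt) (n : ℕ)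
    (ih : ∀ m, m < n → ∀ (M N : Mat α) (S T U : Finset α) (b a c : ℕ),
      CI M N (m + 1) S → CI M N (m + 1) T → CI M N (m + 1) U →
      Disjoint S T → Disjoint S U → Disjoint T U → b + a + c = m →
      ∃ I, CI M N m I ∧ I ⊆ S ∪ T ∪ U ∧
        (I ∩ S).card = b ∧ (I ∩ T).card = a ∧ (I ∩ U).card = c)
    (M N MX NX MY NY : Mat α) (X Y S T U : Finset α) (x y b a c : ℕ)
    (h1 : Disjoint S T) (h2 : Disjoint S U) (h3 : Disjoint T U) (hn : b + a + c = n)
    (hxy : x + y = n + 1) (hx : 1 ≤ x) (hy : 1 ≤ y) (hyx : y ≤ x) (hXY : Disjoint X Y)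
    (pX : Part MX NX x X S T U) (pY : Part MY NY y Y S T U)
    (jM : ∀ I J, MX.Ind I → MY.Ind J → M.Ind (I ∪ J))
    (jN : ∀ I J, NX.Ind I → NY.Ind J → N.Ind (I ∪ J)) :
    ∃ I, CI M N n I ∧ I ⊆ S ∪ T ∪ U ∧
      (I ∩ S).card = b ∧ (I ∩ T).card = a ∧ (I ∩ U).card = c := by
  have dY : ∀ (P Q Z : Finset α), Disjoint P Q → Disjoint (P ∩ Z) (Q ∩ Z) := fun P Q Z h =>
    Finset.disjoint_of_subset_left Finset.inter_subset_left
      (Finset.disjoint_of_subset_right Finset.inter_subset_left h)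
  obtain ⟨J, hJ, hJs, jb, ja, jc⟩ := hKth α MY NY y (S ∩ Y) (T ∩ Y) (U ∩ Y) b a c pY.cS pY.cT
    pY.cU (dY _ _ _ h1) (dY _ _ _ h2) (dY _ _ _ h3) (by omega)
  have hJc := card_three hJs (dY _ _ _ h1) (dY _ _ _ h2) (dY _ _ _ h3)
  rw [hJ.2.2] at hJc
  have hx1 : x - 1 + 1 = x := by omega
  obtain ⟨I, hI, hIs, ib, ia, ic⟩ := ih (x - 1) (by omega) MX NX (S ∩ X) (T ∩ X) (U ∩ X)
    (b - (J ∩ (S ∩ Y)).card) (a - (J ∩ (T ∩ Y)).card) (c - (J ∩ (U ∩ Y)).card)
    (by rw [hx1]; exact pX.cS) (by rw [hx1]; exact pX.cT) (by rw [hx1]; exact pX.cU)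
    (dY _ _ _ h1) (dY _ _ _ h2) (dY _ _ _ h3) (by omega)
  have hIX : I ⊆ X := pX.gM I hI.1
  have hJY : J ⊆ Y := pY.gM J hJ.1
  refine ⟨I ∪ J, ⟨jM I J hI.1 hJ.1, jN I J hI.2.1 hJ.2.1, ?_⟩, ?_, ?_, ?_, ?_⟩
  · rw [Finset.card_union_of_disjoint (Finset.disjoint_of_subset_left hIX
      (Finset.disjoint_of_subset_right hJY hXY)), hI.2.2, hJ.2.2]
    omega
  · intro u hu
    rcases Finset.mem_union.mp hu with hu | hu
    · have := hIs hu
      simp only [Finset.mem_union, Finset.mem_inter] at this ⊢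
      tauto
    · have := hJs hu
      simp only [Finset.mem_union, Finset.mem_inter] at this ⊢
      tauto
  · rw [count_glue hXY hIX hJY, ib]; omega
  · rw [count_glue hXY hIX hJY, ia]; omega
  · rw [count_glue hXY hIX hJY, ic]; omega

theorem mai (hIrt : IrtStmt) (hRed : RedStmt) (hKth : KthStmt) : MaiStmt := by
  intro α _ M N n
  induction n using Nat.strong_induction_on generalizing M N with
  | _ n ih =>
    intro S T U b a c hS hT hU h1 h2 h3 hn
    let E : Finset α := S ∪ T ∪ U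
    let M' : Mat α := trunc (restr M E) (n + 1)
    let N' : Mat α := trunc (restr N E) (n + 1)
    have sS : S ⊆ E := fun u hu => Finset.mem_union_left _ (Finset.mem_union_left _ hu)
    have sT : T ⊆ E := fun u hu => Finset.mem_union_left _ (Finset.mem_union_right _ hu)
    have sU : U ⊆ E := fun u hu => Finset.mem_union_right _ hu
    have tr : ∀ K : Finset α, K ⊆ E → CI M N (n + 1) K → CI M' N' (n + 1) K := by
      intro K hK hc
      exact ⟨⟨⟨hc.1, hK⟩, le_of_eq hc.2.2⟩, ⟨⟨hc.2.1, hK⟩, le_of_eq hc.2.2⟩, hc.2.2⟩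
    have back : ∀ k (K : Finset α), CI M' N' k K → CI M N k K := by
      intro k K hK
      exact ⟨hK.1.1.1, hK.2.1.1.1, hK.2.2⟩
    have hSet : Setup M' N' n S :=
      ⟨trunc_rk _ _, trunc_rk _ _, tr S sS hS⟩
    have gM : ∀ I, M'.Ind I → I ⊆ S ∪ T ∪ U := fun I hI => hI.1.2
    have gN : ∀ I, N'.Ind I → I ⊆ S ∪ T ∪ U := fun I hI => hI.1.2
    by_cases hirr : Irr M' N' n
    · obtain ⟨I, hI, ib, ia, ic⟩ := hIrt α M' N' n S T U b a c hSet (tr T sT hT) (tr U sU hU)
        h1 h2 h3 gM gN hirr hn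
      exact ⟨I, back _ _ hI, gM I hI.1, ib, ia, ic⟩
    · obtain ⟨A, B, MA, NA, MB, NB, p, q, hpq, hp, hq, hAB, pA, pB, jM, jN⟩ :=
        hRed α M' N' n S T U hSet (tr T sT hT) (tr U sU hU) gM gN hirr
      have hres : ∃ I, CI M' N' n I ∧ I ⊆ S ∪ T ∪ U ∧
          (I ∩ S).card = b ∧ (I ∩ T).card = a ∧ (I ∩ U).card = c := by
        rcases Nat.le_total q p with hle | hle
        · exact glue hKth n (fun m hm M N => ih m hm M N) M' N' MA NA MB NB A B S T U p q b a c
            h1 h2 h3 hn hpq hp hq hle hAB pA pB jM jN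
        · exact glue hKth n (fun m hm M N => ih m hm M N) M' N' MB NB MA NA B A S T U q p b a c
            h1 h2 h3 hn (by omega) hq hp hle hAB.symm pB pA
            (fun I J hI hJ => by rw [Finset.union_comm]; exact jM J I hJ hI)
            (fun I J hI hJ => by rw [Finset.union_comm]; exact jN J I hJ hI)
      obtain ⟨I, hI, hs, ib, ia, ic⟩ := hres
      exact ⟨I, back _ _ hI, hs, ib, ia, ic⟩

end Pool.Agent.R3M.H27
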