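import Pool.Agent.R3M.Kit

/-!
# R3M, module POT: the potential on all states
-/

set_option autoImplicit false

namespace Pool.Agent.R3M.H27

open Pool.Agent.R3M Pool.Agent.R3M.Kit

theorem pot (hTop : TopStmt) (hExt : ExtStmt) (hCls : ClsStmt) (hFil : FilStmt) : PotStmt := by
  intro α _ M N n S φ hS hφ hI
  have key : ∀ d, d ≤ n → ∃ θ, Pot M N n S φ (n - d) θ := by
    intro d
    induction d with
    | zero =>
      intro _
      exact hTop α M N n S φ hS hφ
    | succ d ih =>
      intro hd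
      obtain ⟨θ, hθ⟩ := ih (by omega)
      have he : n - d = n - (d + 1) + 1 := by omega
      rw [he] at hθ
      obtain ⟨θ', hθ'⟩ := hExt α M N n S φ θ (n - (d + 1)) hS hφ hθ
      refine ⟨θ', hFil α M N n S φ θ' (n - (d + 1)) hS hφ (by omega) hθ' ?_⟩
      intro P x y hP hk hx hy hxS hyS
      exact hCls α M N n S φ θ' (n - (d + 1)) hS hφ hI hθ' P x y hP hk hx hy hxS hyS
  obtain ⟨θ, hθ⟩ := key n (le_refl n)
  rw [Nat.sub_self] at hθ
  exact ⟨θ, hθ⟩

end Pool.Agent.R3M.H27
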