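import Pool.Agent.R3M.Kit

/-!
# R3M: the final statement in any universe
-/

set_option autoImplicit false

namespace Pool.Agent.R3M.H27

open Pool.Agent.R3M

theorem three_pos (hFin : FinStmt) {α : Type*} (M N : Matroid α) (n : ℕ)
    (S : Fin n → Finset α) (A B C : Finset α)
    (hA : M.Indep (A : Set α) ∧ N.Indep (A : Set α) ∧ A.card = n + 1)
    (hB : M.Indep (B : Set α) ∧ N.Indep (B : Set α) ∧ B.card = n + 1)
    (hC : M.Indep (C : Set α) ∧ N.Indep (C : Set α) ∧ C.card = n + 1)
    (hS : ∀ i, S i = A ∨ S i = B ∨ S i = C) :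
    ∃ g : Fin n → α, Function.Injective g ∧ (∀ i, g i ∈ S i) ∧
      M.Indep (Set.range g) ∧ N.Indep (Set.range g) := by
  classical
  let E : Finset α := A ∪ B ∪ C
  let e : Fin (Fintype.card E) ≃ E := (Fintype.equivFin E).symm
  let f : Fin (Fintype.card E) → α := fun i => (e i : α)
  have hf : Function.Injective f := fun x y h => e.injective (Subtype.ext h)
  let pre : Finset α → Finset (Fin (Fintype.card E)) := fun X => Finset.univ.filter (fun i => f i ∈ X)
  have mem_pre : ∀ (X : Finset α) i, i ∈ pre X ↔ f i ∈ X := fun X i => by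
    show i ∈ Finset.univ.filter (fun i => f i ∈ X) ↔ f i ∈ X
    rw [Finset.mem_filter]
    exact ⟨fun h => h.2, fun h => ⟨Finset.mem_univ _, h⟩⟩
  have im_pre : ∀ X : Finset α, X ⊆ E → (pre X).image f = X := by
    intro X hX
    ext u
    rw [Finset.mem_image]
    constructor
    · rintro ⟨i, hi, rfl⟩
      exact (mem_pre X i).mp hi
    · intro hu
      refine ⟨e.symm ⟨u, hX hu⟩, (mem_pre X _).mpr ?_, ?_⟩
      · show ((e (e.symm ⟨u, hX hu⟩) : E) : α) ∈ X
        rw [Equiv.apply_symm_apply]; exact hu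
      · show ((e (e.symm ⟨u, hX hu⟩) : E) : α) = u
        rw [Equiv.apply_symm_apply]
  have sA : A ⊆ E := fun u hu => Finset.mem_union_left _ (Finset.mem_union_left _ hu)
  have sB : B ⊆ E := fun u hu => Finset.mem_union_left _ (Finset.mem_union_right _ hu)
  have sC : C ⊆ E := fun u hu => Finset.mem_union_right _ hu
  have key : ∀ (K : Matroid α) (X : Finset α), X ⊆ E → K.Indep (X : Set α) →
      (K.comap f).Indep (pre X : Set (Fin (Fintype.card E))) := by
    intro K X hX hK
    rw [Matroid.comap_indep_iff]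
    refine ⟨?_, hf.injOn⟩
    rw [← Finset.coe_image, im_pre X hX]; exact hK
  have card_pre : ∀ X : Finset α, X ⊆ E → (pre X).card = X.card := by
    intro X hX
    rw [← Finset.card_image_of_injective (pre X) hf, im_pre X hX]
  obtain ⟨x, hx, hxS, hxM, hxN⟩ := hFin (Fin (Fintype.card E)) (M.comap f) (N.comap f) n
    (pre A) (pre B) (pre C) (fun i => pre (S i))
    ⟨key M A sA hA.1, key N A sA hA.2.1, by rw [card_pre A sA]; exact hA.2.2⟩
    ⟨key M B sB hB.1, key N B sB hB.2.1, by rw [card_pre B sB]; exact hB.2.2⟩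
    ⟨key M C sC hC.1, key N C sC hC.2.1, by rw [card_pre C sC]; exact hC.2.2⟩
    (fun i => by
      rcases hS i with h | h | h
      · exact Or.inl (by rw [h])
      · exact Or.inr (Or.inl (by rw [h]))
      · exact Or.inr (Or.inr (by rw [h])))
  refine ⟨fun i => f (x i), hf.comp hx, fun i => (mem_pre (S i) (x i)).mp (hxS i), ?_, ?_⟩
  · rw [Matroid.comap_indep_iff, ← Set.range_comp] at hxM
    exact hxM.1
  · rw [Matroid.comap_indep_iff, ← Set.range_comp] at hxN
    exact hxN.1

theorem three (hFin : FinStmt) {α : Type*} (M N : Matroid α) (n : ℕ)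
    (S : Fin n → Finset α) (A B C : Finset α)
    (hS : ∀ i, M.Indep (↑(S i) : Set α) ∧ N.Indep (↑(S i) : Set α) ∧ (S i).card = n + 1)
    (hABC : ∀ i, S i = A ∨ S i = B ∨ S i = C) :
    ∃ g : Fin n → α, Function.Injective g ∧ (∀ i, g i ∈ S i) ∧
      M.Indep (Set.range g) ∧ N.Indep (Set.range g) := by
  classical
  rcases Nat.eq_zero_or_pos n with hn | hn
  · subst hn
    refine ⟨fun i => i.elim0, fun a => a.elim0, fun a => a.elim0, ?_, ?_⟩
    · rw [Set.range_eq_empty]
      exact M.empty_indep
    · rw [Set.range_eq_empty]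
      exact N.empty_indep
  · let i0 : Fin n := ⟨0, hn⟩
    let r : Finset α → Finset α := fun X => if ∃ i, S i = X then X else S i0
    have hr : ∀ X, M.Indep (r X : Set α) ∧ N.Indep (r X : Set α) ∧ (r X).card = n + 1 := by
      intro X
      by_cases h : ∃ i, S i = X
      · have : r X = X := if_pos h
        obtain ⟨i, hi⟩ := h
        rw [this, ← hi]; exact hS i
      · have : r X = S i0 := if_neg h
        rw [this]; exact hS i0
    have hr' : ∀ i, r (S i) = S i := fun i => if_pos ⟨i, rfl⟩
    refine three_pos hFin M N n S (r A) (r B) (r C) (hr A) (hr B) (hr C) (fun i => ?_)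
    rcases hABC i with h | h | h
    · exact Or.inl (by rw [← h, hr' i])
    · exact Or.inr (Or.inl (by rw [← h, hr' i]))
    · exact Or.inr (Or.inr (by rw [← h, hr' i]))

end Pool.Agent.R3M.H27
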