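import Pool.Agent.Helper29_R3M.Lsp
import Pool.Agent.Helper76_R3M.LV
import Pool.Agent.Helper36_R3M.ARC
import Pool.Agent.Helper36_R3M.TRI
import Pool.Agent.Helper85_R3M.Low
import Pool.Agent.Helper31_R3M.Val
import Pool.Agent.Helper36_R3M.HOR
import Pool.Agent.Helper81_R3M.FIL
import Pool.Agent.Helper81_R3M.TOP
import Pool.Agent.Helper36_R3M.CYC
import Pool.Agent.Helper89_R3M.Ptm
import Pool.Agent.Helper18_R3M.MTR
import Pool.Agent.Helper60_R3M.REV
import Pool.Agent.Helper60_R3M.VSA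
import Pool.Agent.Helper60_R3M.VSC
import Pool.Agent.Helper94_R3M.Adj
import Pool.Agent.Helper31_R3M.Cls
import Pool.Agent.Helper15_R3M.CRO
import Pool.Agent.Helper18_R3M.IRT
import Pool.Agent.Helper15_R3M.RDB
import Pool.Agent.Helper18_R3M.RED
import Pool.Agent.Helper15_R3M.KZG
import Pool.Agent.Helper15_R3M.KZA
import Pool.Agent.Helper67_R3M.PAR
import Pool.Agent.Helper67_R3M.FIN
import Pool.Agent.Helper27_R3M.Pot
import Pool.Agent.Helper27_R3M.Mai
import Pool.Agent.Helper27_R3M.Kth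
import Pool.Agent.Helper27_R3M.Uni
import Pool.Agent.Helper27_R3M.Lci
import Pool.Agent.Helper27_R3M.Com
import Pool.Agent.Helper8_R3M.Grid
import Pool.Agent.Helper89_R3M.Pta
import Pool.Agent.Helper89_R3M.Ptb
import Pool.Agent.Helper31_R3M.Cnc
import Pool.Agent.Helper62_R3M.KZT

/-!
# R3M: assembly
-/

set_option autoImplicit false

namespace Pool.Agent.R3M.H27

open Pool.Agent.R3M

theorem asm : FinStmt := by
  have lsp : LspStmt := Pool.Agent.R3M.H29.lsp
  have lci : LciStmt := Pool.Agent.R3M.H27.lci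
  have lcl : LclStmt := Pool.Agent.R3M.H76.lcl
  have ltw : LtwStmt := Pool.Agent.R3M.H76.ltw
  have tri : TriStmt := Pool.Agent.R3M.H36.tri Pool.Agent.R3M.H36.arc
  have upe : UpeStmt := Pool.Agent.Helper85_R3M.upe lci
  have vbf : VbfStmt := Pool.Agent.R3M.H27.vbf lsp
  have val : ValStmt := Pool.Agent.R3M.H31.val lci (Pool.Agent.R3M.H76.vrc lsp)
    (Pool.Agent.R3M.H76.vrf lci lsp) (Pool.Agent.R3M.H76.vff lci)
    (Pool.Agent.R3M.H76.vbr lsp lcl lci ltw) vbf Pool.Agent.Helper85_R3M.vse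
    Pool.Agent.Helper85_R3M.vfo Pool.Agent.Helper85_R3M.vlo
  have ext : ExtStmt := Pool.Agent.Helper85_R3M.ext val
  have hor : HorStmt := Pool.Agent.R3M.H36.hor lci lsp
  have fil : FilStmt := Pool.Agent.R3M.H81.fil hor
  have top : TopStmt := Pool.Agent.R3M.H81.top
  have mtr : MtrStmt := Pool.Agent.R3M.H18.mtr tri
  have rev : RevStmt := Pool.Agent.R3M.H60.rev
  have vsa : VsaStmt := Pool.Agent.R3M.H60.vsa mtr
  have vsb : VsbStmt := Pool.Agent.R3M.H60.vsb rev vsa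
  have vst : VstStmt := Pool.Agent.R3M.H60.vst vsa vsb Pool.Agent.R3M.H60.vsc
  have adj : AdjStmt := Pool.Agent.R3M.H94.adj
  have com : ComStmt := Pool.Agent.R3M.H27.com vst adj (Pool.Agent.R3M.H8.cgr vst adj)
    (Pool.Agent.R3M.H8.cst vst adj) (Pool.Agent.R3M.H8.dst vst adj)
    (Pool.Agent.R3M.H8.ttr vst adj)
  have con : ConStmt := Pool.Agent.R3M.H27.con com (Pool.Agent.R3M.H27.cna vst)
    (Pool.Agent.R3M.H27.cnb vst) (Pool.Agent.R3M.H31.cnc vst mtr rev)
  have cls : ClsStmt := Pool.Agent.R3M.H31.cls lci hor Pool.Agent.R3M.H36.cyc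
    Pool.Agent.R3M.H89.pta Pool.Agent.R3M.H89.ptb con
  have pot : PotStmt := Pool.Agent.R3M.H27.pot top ext cls fil
  have irt : IrtStmt := Pool.Agent.R3M.H18.irt pot Pool.Agent.R3M.H15.cro upe
  have red : RedStmt := Pool.Agent.R3M.H18.red Pool.Agent.R3M.H15.rdb
  have kza : KzaStmt := Pool.Agent.R3M.H15.kza tri lsp
  have kzt : KztStmt := fun α _ M N q m F hq hF hm =>
    Pool.Agent.R3M.H62.kzt_pos Pool.Agent.R3M.H15.kzg kza M N q m F hq hF hm
  have kth : KthStmt := Pool.Agent.R3M.H27.kth kzt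
  have mai : MaiStmt := Pool.Agent.R3M.H27.mai irt red kth
  exact Pool.Agent.R3M.H67.fin (Pool.Agent.R3M.H67.par mai)

end Pool.Agent.R3M.H27
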