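import Pool.Agent.R3M.Kit

/-!
# R3M: CNA and CNB
-/

set_option autoImplicit false

namespace Pool.Agent.R3M.H27

open Pool.Agent.R3M Pool.Agent.R3M.Kit

variable {α : Type} [DecidableEq α]

theorem up_step {M N : Mat α} {n : ℕ} {S : Finset α} {φ : Finset α → Finset α → ℤ} {k : ℕ}
    {θ : Finset α → ℤ} (hV : Vert M N n S φ k θ) {A : Finset α} {e f : α} (hA : CI M N n A)
    (hU : Up M N S A e f) (hk : k ≤ (A ∩ S).card) :
    φ A (insert e (A.erase f)) = θ (insert e (A.erase f)) - θ A := by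
  rcases Nat.eq_or_lt_of_le hk with h | h
  · exact hV.2 A e f hA h.symm hU
  · refine hV.1 A _ hA (up_ci hA hU) (near_exch _ _ _) h ?_ ?_
    · rw [up_level hU]; omega
    · refine Or.inl ⟨f, Or.inl ⟨hU.2.2.1, ?_⟩, hU.2.2.2.1⟩
      rw [mem_exch]
      rintro (h1 | ⟨h1, _⟩)
      · exact hU.2.1 (h1 ▸ hU.2.2.1)
      · exact h1 rfl

theorem mem_VS {P : Finset α} {g d f z h e : ℕ → α} {i j : ℕ} {X RX Y RY : Finset ℕ} {x : α} :
    x ∈ VS P g d f z h e i j X RX Y RY ↔
      (x ∈ P ∧ (∀ r ∈ RX, g r ≠ x) ∧ (∀ r, i ≤ r → r ≤ j → f r ≠ x) ∧ (∀ r ∈ RY, h r ≠ x)) ∨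
        (∃ r ∈ X, d r = x) ∨ (∃ r, i ≤ r ∧ r < j ∧ z r = x) ∨ (∃ r ∈ Y, e r = x) := by
  unfold VS
  simp only [Finset.mem_union, Finset.mem_sdiff, Finset.mem_image, Finset.mem_Icc,
    Finset.mem_Ico, not_or, not_exists, not_and]
  constructor
  · rintro (⟨h1, ⟨h2, h3⟩, h4⟩ | ((h1 | h1) | h1))
    · exact Or.inl ⟨h1, fun r hr => h2 r hr, fun r ha hb => h3 r ⟨ha, hb⟩, fun r hr => h4 r hr⟩
    · exact Or.inr (Or.inl h1)
    · obtain ⟨r, ⟨ha, hb⟩, hc⟩ := h1
      exact Or.inr (Or.inr (Or.inl ⟨r, ha, hb, hc⟩))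
    · exact Or.inr (Or.inr (Or.inr h1))
  · rintro (⟨h1, h2, h3, h4⟩ | (h1 | (h1 | h1)))
    · exact Or.inl ⟨h1, ⟨h2, fun r ha => h3 r ha.1 ha.2⟩, h4⟩
    · exact Or.inr (Or.inl (Or.inl h1))
    · obtain ⟨r, ha, hb, hc⟩ := h1
      exact Or.inr (Or.inl (Or.inr ⟨r, ⟨ha, hb⟩, hc⟩))
    · exact Or.inr (Or.inr h1)

theorem cna (vst : VstStmt) : CnaStmt := by
  intro α _ M N n P S a l b g d f z h e φ θ k τ hS hP hC hφ hk hV
  have ha2 : 2 ≤ a := hC.c1.two
  have hb2 : 2 ≤ b := hC.c2.two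
  have hlpos : 1 ≤ l := hC.lpos
  have hl0 : (0 : ℕ) ≠ l := by omega
  have hM2 : Mo2 b l 0 (Y2 b l τ 0) (RY2 b l τ 0) := by
    right
    refine ⟨by omega, ?_⟩
    cases τ
    · left; simp [Y2, RY2, hl0]
    · right; simp [Y2, RY2, hl0]
  have hY : ∀ r ∈ Y2 b l τ 0, r < b := by
    intro r hr
    cases τ
    · simp [Y2] at hr
    · simpa [Y2, hl0] using hr
  have hRY : ∀ r ∈ RY2 b l τ 0, r < b := by
    intro r hr
    cases τ
    · simp [RY2, hl0] at hr
    · simpa [RY2, hl0] using hr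
  have hst : ∀ t, t < a → CI M N n (CC P l b g d f z h e τ t 0) := by
    intro t ht
    exact vst α M N n P S a l b g d f z h e 0 0 _ _ _ _ hS hP hC (le_refl 0) (Nat.zero_le l)
      (Or.inl ⟨rfl, t, ht, rfl, rfl⟩) hM2
  have hstep : ∀ t, t + 1 < a → φ (CC P l b g d f z h e τ t 0) (CC P l b g d f z h e τ (t + 1) 0) =
      θ (CC P l b g d f z h e τ (t + 1) 0) - θ (CC P l b g d f z h e τ t 0) := by
    intro t ht
    have hgP : g (t + 1) ∈ P := hC.c1.hP (t + 1) ht
    have hgS : g (t + 1) ∉ S := hC.c1.hS (t + 1) ht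
    have hdP : d t ∉ P := hC.c1.eP t (by omega)
    have hdS : d t ∈ S := hC.c1.eS t (by omega)
    have heq : CC P l b g d f z h e τ (t + 1) 0 =
        insert (d t) ((CC P l b g d f z h e τ t 0).erase (g (t + 1))) := by
      ext x
      rw [mem_exch]
      unfold CC
      rw [mem_VS, mem_VS]
      constructor
      · rintro (⟨h1, h2, h3, h4⟩ | ⟨r, hr, h1⟩ | ⟨r, hr1, hr2, h1⟩ | ⟨r, hr, h1⟩)
        · refine Or.inr ⟨fun hc => h2 (t + 1) (Finset.mem_range.mpr (by omega)) hc.symm,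
            Or.inl ⟨h1, fun r hr => h2 r ?_, h3, h4⟩⟩
          rw [Finset.mem_range] at hr ⊢; omega
        · rw [Finset.mem_range] at hr
          rcases Nat.lt_or_ge r t with h | h
          · refine Or.inr ⟨fun hc => hC.c1.eP r (by omega) (by rw [h1, hc]; exact hgP),
              Or.inr (Or.inl ⟨r, Finset.mem_range.mpr h, h1⟩)⟩
          · have : r = t := by omega
            exact Or.inl (by rw [← h1, this])
        · omega
        · refine Or.inr ⟨fun hc => hC.c2.eP r (hY r hr) (by rw [h1, hc]; exact hgP),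
            Or.inr (Or.inr (Or.inr ⟨r, hr, h1⟩))⟩
      · rintro (h1 | ⟨hne, ⟨h1, h2, h3, h4⟩ | ⟨r, hr, h1⟩ | ⟨r, hr1, hr2, h1⟩ | ⟨r, hr, h1⟩⟩)
        · exact Or.inr (Or.inl ⟨t, Finset.mem_range.mpr (by omega), h1.symm⟩)
        · refine Or.inl ⟨h1, fun r hr => ?_, h3, h4⟩
          rw [Finset.mem_range] at hr
          rcases Nat.lt_or_ge r (t + 1) with h | h
          · exact h2 r (Finset.mem_range.mpr h)
          · have : r = t + 1 := by omega
            rw [this]; exact fun hc => hne hc.symm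
        · rw [Finset.mem_range] at hr
          exact Or.inr (Or.inl ⟨r, Finset.mem_range.mpr (by omega), h1⟩)
        · omega
        · exact Or.inr (Or.inr (Or.inr ⟨r, hr, h1⟩))
    have hgA : g (t + 1) ∈ CC P l b g d f z h e τ t 0 := by
      unfold CC
      rw [mem_VS]
      refine Or.inl ⟨hgP, fun r hr hc => ?_, fun r _ hr2 hc => ?_, fun r hr hc => ?_⟩
      · rw [Finset.mem_range] at hr
        have := hC.c1.hinj r (t + 1) (by omega) ht hc
        omega
      · have : r = 0 := by omega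
        rw [this, hC.f0] at hc
        have := hC.c1.hinj 0 (t + 1) (by omega) ht hc
        omega
      · exact hC.gh (t + 1) r (by omega) (by have := hRY r hr; omega) hc.symm
    have hdA : d t ∉ CC P l b g d f z h e τ t 0 := by
      unfold CC
      rw [mem_VS]
      rintro (⟨h1, _⟩ | ⟨r, hr, h1⟩ | ⟨r, hr1, hr2, h1⟩ | ⟨r, hr, h1⟩)
      · exact hdP h1
      · rw [Finset.mem_range] at hr
        have := hC.c1.einj r t (by omega) (by omega) h1
        omega
      · omega
      · exact hC.de t r (by omega) (hY r hr) h1.symm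
    have hA := hst t (by omega)
    have hA' := hst (t + 1) ht
    rw [heq] at hA' ⊢
    refine up_step hV hA ⟨hdS, hdA, hgA, hgS, hA'.1, hA'.2.1⟩ ?_
    rw [← hk]
    refine Finset.card_le_card (fun x hx => ?_)
    rw [Finset.mem_inter] at hx ⊢
    refine ⟨?_, hx.2⟩
    unfold CC
    rw [mem_VS]
    refine Or.inl ⟨hx.1, fun r hr hc => ?_, fun r _ hr2 hc => ?_, fun r hr hc => ?_⟩
    · rw [Finset.mem_range] at hr
      exact hC.c1.hS r (by omega) (hc ▸ hx.2)
    · have : r = 0 := by omega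
      rw [this, hC.f0] at hc
      exact hC.c1.hS 0 (by omega) (hc ▸ hx.2)
    · exact hC.c2.hS r (hRY r hr) (hc ▸ hx.2)
  rw [Finset.sum_congr rfl (fun t ht => hstep t (by rw [Finset.mem_range] at ht; omega))]
  exact Finset.sum_range_sub (fun t => θ (CC P l b g d f z h e τ t 0)) (a - 1)

theorem cnb (vst : VstStmt) : CnbStmt := by
  intro α _ M N n P S a l b g d f z h e φ θ k σ hS hP hC hφ hk hV
  have ha2 : 2 ≤ a := hC.c1.two
  have hb2 : 2 ≤ b := hC.c2.two
  have hlpos : 1 ≤ l := hC.lpos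
  have hl0 : l ≠ 0 := by omega
  have hM1 : Mo1 a l (X1 a σ l) (RX1 a σ l) := by
    right
    refine ⟨hlpos, ?_⟩
    cases σ
    · left; simp [X1, RX1, hl0]
    · right; simp [X1, RX1, hl0]
  have hX : ∀ r ∈ X1 a σ l, r < a := by
    intro r hr
    cases σ
    · simp [X1] at hr
    · simpa [X1, hl0] using hr
  have hRX : ∀ r ∈ RX1 a σ l, r < a := by
    intro r hr
    cases σ
    · simp [RX1, hl0] at hr
    · simpa [RX1, hl0] using hr
  have hst : ∀ u, u < b → CI M N n (DD P a l g d f z h e σ l u) := by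
    intro u hu
    exact vst α M N n P S a l b g d f z h e l l _ _ _ _ hS hP hC (le_refl l) (le_refl l)
      hM1 (Or.inl ⟨rfl, u, hu, rfl, rfl⟩)
  have hstep : ∀ u, u + 1 < b → φ (DD P a l g d f z h e σ l u) (DD P a l g d f z h e σ l (u + 1)) =
      θ (DD P a l g d f z h e σ l (u + 1)) - θ (DD P a l g d f z h e σ l u) := by
    intro u hu
    have hgP : h (u + 1) ∈ P := hC.c2.hP (u + 1) hu
    have hgS : h (u + 1) ∉ S := hC.c2.hS (u + 1) hu
    have hdP : e u ∉ P := hC.c2.eP u (by omega)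
    have hdS : e u ∈ S := hC.c2.eS u (by omega)
    have heq : DD P a l g d f z h e σ l (u + 1) =
        insert (e u) ((DD P a l g d f z h e σ l u).erase (h (u + 1))) := by
      ext x
      rw [mem_exch]
      unfold DD
      rw [mem_VS, mem_VS]
      constructor
      · rintro (⟨h1, h2, h3, h4⟩ | ⟨r, hr, h1⟩ | ⟨r, hr1, hr2, h1⟩ | ⟨r, hr, h1⟩)
        · refine Or.inr ⟨fun hc => h4 (u + 1) (Finset.mem_range.mpr (by omega)) hc.symm,
            Or.inl ⟨h1, h2, h3, fun r hr => h4 r ?_⟩⟩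
          rw [Finset.mem_range] at hr ⊢; omega
        · refine Or.inr ⟨fun hc => hC.c1.eP r (hX r hr) (by rw [h1, hc]; exact hgP),
            Or.inr (Or.inl ⟨r, hr, h1⟩)⟩
        · omega
        · rw [Finset.mem_range] at hr
          rcases Nat.lt_or_ge r u with h' | h'
          · refine Or.inr ⟨fun hc => hC.c2.eP r (by omega) (by rw [h1, hc]; exact hgP),
              Or.inr (Or.inr (Or.inr ⟨r, Finset.mem_range.mpr h', h1⟩))⟩
          · have : r = u := by omega
            exact Or.inl (by rw [← h1, this])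
      · rintro (h1 | ⟨hne, ⟨h1, h2, h3, h4⟩ | ⟨r, hr, h1⟩ | ⟨r, hr1, hr2, h1⟩ | ⟨r, hr, h1⟩⟩)
        · exact Or.inr (Or.inr (Or.inr ⟨u, Finset.mem_range.mpr (by omega), h1.symm⟩))
        · refine Or.inl ⟨h1, h2, h3, fun r hr => ?_⟩
          rw [Finset.mem_range] at hr
          rcases Nat.lt_or_ge r (u + 1) with h' | h'
          · exact h4 r (Finset.mem_range.mpr h')
          · have : r = u + 1 := by omega
            rw [this]; exact fun hc => hne hc.symm
        · exact Or.inr (Or.inl ⟨r, hr, h1⟩)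
        · omega
        · rw [Finset.mem_range] at hr
          exact Or.inr (Or.inr (Or.inr ⟨r, Finset.mem_range.mpr (by omega), h1⟩))
    have hgA : h (u + 1) ∈ DD P a l g d f z h e σ l u := by
      unfold DD
      rw [mem_VS]
      refine Or.inl ⟨hgP, fun r hr hc => ?_, fun r hr1 hr2 hc => ?_, fun r hr hc => ?_⟩
      · exact hC.gh r (u + 1) (by have := hRX r hr; omega) (by omega) hc
      · have : r = l := by omega
        rw [this, hC.fl] at hc
        have := hC.c2.hinj 0 (u + 1) (by omega) hu hc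
        omega
      · rw [Finset.mem_range] at hr
        have := hC.c2.hinj r (u + 1) (by omega) hu hc
        omega
    have hdA : e u ∉ DD P a l g d f z h e σ l u := by
      unfold DD
      rw [mem_VS]
      rintro (⟨h1, _⟩ | ⟨r, hr, h1⟩ | ⟨r, hr1, hr2, h1⟩ | ⟨r, hr, h1⟩)
      · exact hdP h1
      · exact hC.de r u (hX r hr) (by omega) h1
      · omega
      · rw [Finset.mem_range] at hr
        have := hC.c2.einj r u (by omega) (by omega) h1
        omega
    have hA := hst u (by omega)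
    have hA' := hst (u + 1) hu
    rw [heq] at hA' ⊢
    refine up_step hV hA ⟨hdS, hdA, hgA, hgS, hA'.1, hA'.2.1⟩ ?_
    rw [← hk]
    refine Finset.card_le_card (fun x hx => ?_)
    rw [Finset.mem_inter] at hx ⊢
    refine ⟨?_, hx.2⟩
    unfold DD
    rw [mem_VS]
    refine Or.inl ⟨hx.1, fun r hr hc => ?_, fun r hr1 hr2 hc => ?_, fun r hr hc => ?_⟩
    · exact hC.c1.hS r (hRX r hr) (hc ▸ hx.2)
    · have : r = l := by omega
      rw [this, hC.fl] at hc
      exact hC.c2.hS 0 (by omega) (hc ▸ hx.2)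
    · rw [Finset.mem_range] at hr
      exact hC.c2.hS r (by omega) (hc ▸ hx.2)
  rw [Finset.sum_congr rfl (fun u hu => hstep u (by rw [Finset.mem_range] at hu; omega))]
  exact Finset.sum_range_sub (fun u => θ (DD P a l g d f z h e σ l u)) (b - 1)

end Pool.Agent.R3M.H27
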