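import Pool.Agent.Helper27_R3M.Cna

/-!
# R3M: CON
-/

set_option autoImplicit false

namespace Pool.Agent.R3M.H27

open Pool.Agent.R3M Pool.Agent.R3M.Kit

variable {α : Type} [DecidableEq α]

section
variable (P : Finset α) (a l b : ℕ) (g d f z h e : ℕ → α)

theorem CC_zero (τ : Bool) (j : ℕ) :
    CC P l b g d f z h e τ 0 j = TT P a l b g d f z h e false τ 0 j := by
  unfold CC TT X1 RX1
  simp

theorem CC_last (ha : 1 ≤ a) (τ : Bool) (j : ℕ) :
    CC P l b g d f z h e τ (a - 1) j = TT P a l b g d f z h e true τ 0 j := by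
  unfold CC TT X1 RX1
  have : a - 1 + 1 = a := by omega
  rw [this]
  simp

theorem DD_zero (σ : Bool) (i : ℕ) :
    DD P a l g d f z h e σ i 0 = TT P a l b g d f z h e σ false i l := by
  unfold DD TT Y2 RY2
  simp

theorem DD_last (hb : 1 ≤ b) (σ : Bool) (i : ℕ) :
    DD P a l g d f z h e σ i (b - 1) = TT P a l b g d f z h e σ true i l := by
  unfold DD TT Y2 RY2
  have : b - 1 + 1 = b := by omega
  rw [this]
  simp

theorem TT_ff_zero (hl : 1 ≤ l) (hf : f 0 = g 0) :
    TT P a l b g d f z h e false false 0 0 = P.erase (g 0) := by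
  have hl0 : ¬ 0 = l := by omega
  ext x
  unfold TT
  rw [mem_VS, Finset.mem_erase]
  simp only [X1, RX1, Y2, RY2, if_false, hl0, Bool.false_eq_true, if_true]
  constructor
  · rintro (⟨h1, h2, -, -⟩ | ⟨r, hr, -⟩ | ⟨r, hr1, hr2, -⟩ | ⟨r, hr, -⟩)
    · exact ⟨fun hc => h2 0 (by simp) hc.symm, h1⟩
    · simp at hr
    · omega
    · simp at hr
  · rintro ⟨h1, h2⟩
    refine Or.inl ⟨h2, fun r hr hc => ?_, fun r _ hr hc => ?_, fun r hr => by simp at hr⟩
    · have : r = 0 := by simpa using hr
      exact h1 (by rw [← hc, this])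
    · have : r = 0 := by omega
      exact h1 (by rw [← hc, this, hf])

theorem TT_ff_last (hl : 1 ≤ l) (hf : f l = h 0) :
    TT P a l b g d f z h e false false l l = P.erase (h 0) := by
  have hl0 : ¬ l = 0 := by omega
  ext x
  unfold TT
  rw [mem_VS, Finset.mem_erase]
  simp only [X1, RX1, Y2, RY2, if_false, hl0, Bool.false_eq_true, if_true]
  constructor
  · rintro (⟨h1, -, -, h2⟩ | ⟨r, hr, -⟩ | ⟨r, hr1, hr2, -⟩ | ⟨r, hr, -⟩)
    · exact ⟨fun hc => h2 0 (by simp) hc.symm, h1⟩
    · simp at hr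
    · omega
    · simp at hr
  · rintro ⟨h1, h2⟩
    refine Or.inl ⟨h2, fun r hr => by simp at hr, fun r hr1 hr hc => ?_, fun r hr hc => ?_⟩
    · have : r = l := by omega
      exact h1 (by rw [← hc, this, hf])
    · have : r = 0 := by simpa using hr
      exact h1 (by rw [← hc, this])

end

theorem con (com : ComStmt) (cna : CnaStmt) (cnb : CnbStmt) (cnc : CncStmt) : ConStmt := by
  intro α _ M N n P S a l b g d f z h e φ θ k hS hP hC hφ hk hV
  have ha : 1 ≤ a := by have := hC.c1.two; omega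
  have hb : 1 ≤ b := by have := hC.c2.two; omega
  have hl : 1 ≤ l := hC.lpos
  have E := com α M N n P S a l b g d f z h e φ hS hP hC hφ
  have a0 := cna α M N n P S a l b g d f z h e φ θ k false hS hP hC hφ hk hV
  have a1 := cna α M N n P S a l b g d f z h e φ θ k true hS hP hC hφ hk hV
  have b0 := cnb α M N n P S a l b g d f z h e φ θ k false hS hP hC hφ hk hV
  have b1 := cnb α M N n P S a l b g d f z h e φ θ k true hS hP hC hφ hk hV
  obtain ⟨c0, c1, c2⟩ := cnc α M N n P S a l b g d f z h e φ θ k hS hP hC hφ hk hV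
  rw [a0, a1, b0, b1, c0, c1, c2] at E
  rw [CC_last P a l b g d f z h e ha false 0, CC_last P a l b g d f z h e ha true 0,
    CC_zero P a l b g d f z h e false 0, CC_zero P a l b g d f z h e true 0,
    DD_last P a l b g d f z h e hb false l, DD_last P a l b g d f z h e hb true l,
    DD_zero P a l b g d f z h e false l, DD_zero P a l b g d f z h e true l] at E
  have e0 := TT_ff_zero P a l b g d f z h e hl hC.f0
  have e1 := TT_ff_last P a l b g d f z h e hl hC.fl
  rw [e0, e1] at E
  have hg : g 0 ∈ P := hC.c1.hP 0 (by omega)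
  have hh : h 0 ∈ P := hC.c2.hP 0 (by omega)
  have ci : ∀ x ∈ P, CI M N n (P.erase x) := by
    intro x hx
    refine ⟨M.sub hP.1 (Finset.erase_subset _ _), N.sub hP.2.1 (Finset.erase_subset _ _), ?_⟩
    rw [Finset.card_erase_of_mem hx, hP.2.2]; rfl
  have hanti := clo_anti hφ (ci _ hg) (ci _ hh) (near_erase P (g 0) (h 0))
  unfold Cons
  linarith

end Pool.Agent.R3M.H27
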