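import Pool.Agent.R3M.Kit

/-!
# R3M, module FIL: filling the level `k`
-/

set_option autoImplicit false

namespace Pool.Agent.R3M.H27

open Pool.Agent.R3M Pool.Agent.R3M.Kit

theorem level_eq {α : Type} [DecidableEq α] {S I : Finset α} {x y : α} (hx : x ∈ I)
    (hy : y ∉ I) (h : x ∈ S ↔ y ∈ S) :
    ((insert y (I.erase x)) ∩ S).card = (I ∩ S).card := by
  by_cases hxS : x ∈ S
  · have hyS := h.mp hxS
    have e : (insert y (I.erase x)) ∩ S = insert y ((I ∩ S).erase x) := by
      ext u
      simp only [Finset.mem_inter, Finset.mem_insert, Finset.mem_erase]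
      constructor
      · rintro ⟨rfl | ⟨h1, h2⟩, h3⟩
        · exact Or.inl rfl
        · exact Or.inr ⟨h1, h2, h3⟩
      · rintro (rfl | ⟨h1, h2, h3⟩)
        · exact ⟨Or.inl rfl, hyS⟩
        · exact ⟨Or.inr ⟨h1, h2⟩, h3⟩
    rw [e]
    exact card_exch (fun hc => hy (Finset.mem_inter.mp hc).1) (Finset.mem_inter.mpr ⟨hx, hxS⟩)
  · have hyS : y ∉ S := fun hc => hxS (h.mpr hc)
    have e : (insert y (I.erase x)) ∩ S = I ∩ S := by
      ext u
      simp only [Finset.mem_inter, Finset.mem_insert, Finset.mem_erase]
      constructor
      · rintro ⟨rfl | ⟨h1, h2⟩, h3⟩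
        · exact absurd h3 hyS
        · exact ⟨h2, h3⟩
      · rintro ⟨h2, h3⟩
        exact ⟨Or.inr ⟨fun hc => hxS (hc ▸ h3), h2⟩, h3⟩
    rw [e]

theorem fil (hHor : HorStmt) : FilStmt := by
  intro α _ M N n S φ θ k hS hφ hk hV hC I J hI hJ hn hkI hkJ hA
  rcases near_cases (by rw [hI.2.2, hJ.2.2]) hn with rfl | ⟨x, y, hxI, hxJ, hyJ, hyI, hJe, hIe⟩
  · rw [clo_self hφ hI]; omega
  by_cases h1 : k + 1 ≤ (I ∩ S).card
  · by_cases h2 : k + 1 ≤ (J ∩ S).card
    · exact hV.1 I J hI hJ hn h1 h2 hA
    · -- `J` has level `k`, `I` has level `k + 1`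
      have hJk : (J ∩ S).card = k := by omega
      have hxS : x ∈ S := by
        by_contra hxS
        by_cases hyS : y ∈ S
        · have := exch_level hyS hyI hxS
          rw [← hJe] at this
          omega
        · have := level_eq hxI hyI (S := S) ⟨fun h => absurd h hxS, fun h => absurd h hyS⟩
          rw [← hJe] at this
          omega
      have hyS : y ∉ S := by
        intro hyS
        have := level_eq hxI hyI (S := S) ⟨fun _ => hyS, fun _ => hxS⟩
        rw [← hJe] at this
        omega
      have hU : Up M N S J x y := ⟨hxS, hxJ, hyJ, hyS, by rw [← hIe]; exact hI.1,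
        by rw [← hIe]; exact hI.2.1⟩
      have := hV.2 J x y hJ hJk hU
      rw [← hIe] at this
      have h3 := clo_anti hφ hI hJ hn
      omega
  · have hIk : (I ∩ S).card = k := by omega
    by_cases h2 : k + 1 ≤ (J ∩ S).card
    · have hyS : y ∈ S := by
        by_contra hyS
        by_cases hxS : x ∈ S
        · have := exch_level hxS hxJ hyS
          rw [← hIe] at this
          omega
        · have := level_eq hxI hyI (S := S) ⟨fun h => absurd h hxS, fun h => absurd h hyS⟩
          rw [← hJe] at this
          omega
      have hxS : x ∉ S := by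
        intro hxS
        have := level_eq hxI hyI (S := S) ⟨fun _ => hyS, fun _ => hxS⟩
        rw [← hJe] at this
        omega
      have hU : Up M N S I y x := ⟨hyS, hyI, hxI, hxS, by rw [← hJe]; exact hJ.1,
        by rw [← hJe]; exact hJ.2.1⟩
      have := hV.2 I y x hI hIk hU
      rw [← hJe] at this
      exact this
    · have hJk : (J ∩ S).card = k := by omega
      -- both changed elements are outside `S`
      have hxy : x ∉ S ∧ y ∉ S := by
        by_cases hxS : x ∈ S
        · by_cases hyS : y ∈ S
          · exfalso
            rcases hA with ⟨u, hu, huS⟩ | ⟨hIS, _⟩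
            · rcases hu with ⟨hu1, hu2⟩ | ⟨hu1, hu2⟩
              · have : u = x := by
                  by_contra hne
                  exact hu2 (by rw [hJe]; exact mem_exch.mpr (Or.inr ⟨hne, hu1⟩))
                exact huS (this ▸ hxS)
              · have : u = y := by
                  by_contra hne
                  exact hu2 (by rw [hIe]; exact mem_exch.mpr (Or.inr ⟨hne, hu1⟩))
                exact huS (this ▸ hyS)
            · have : I ∩ S = I := Finset.inter_eq_left.mpr hIS
              rw [this, hI.2.2] at hIk
              omega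
          · exfalso
            have := exch_level hxS hxJ hyS
            rw [← hIe] at this
            omega
        · by_cases hyS : y ∈ S
          · exfalso
            have := exch_level hyS hyI hxS
            rw [← hJe] at this
            omega
          · exact ⟨hxS, hyS⟩
      obtain ⟨hxS, hyS⟩ := hxy
      have hxK : x ∉ I.erase x := Finset.notMem_erase x I
      have hyK : y ∉ I.erase x := fun h => hyI (Finset.mem_of_mem_erase h)
      have hxy' : x ≠ y := fun h => hyI (h ▸ hxI)
      have hIK : insert x (I.erase x) = I := Finset.insert_erase hxI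
      have hKk : ((I.erase x) ∩ S).card = k := by
        have : (I.erase x) ∩ S = I ∩ S := by
          ext u
          simp only [Finset.mem_inter, Finset.mem_erase]
          constructor
          · rintro ⟨⟨_, h⟩, h'⟩; exact ⟨h, h'⟩
          · rintro ⟨h, h'⟩; exact ⟨⟨fun hc => hxS (hc ▸ h'), h⟩, h'⟩
        rw [this]; exact hIk
      have hor := hHor α M N n S φ θ k (I.erase x) x y hS hφ hV hxK hyK hxy' hxS hyS
        (by rw [hIK]; exact hI) (by rw [← hJe]; exact hJ) hKk
      rw [hIK, ← hJe] at hor
      rcases hor with hor | ⟨hP, _⟩
      · exact hor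
      · have e1 : (insert x J).erase x = J := Finset.erase_insert hxJ
        have e2 : (insert x J).erase y = I := by
          rw [hIe]
          ext u
          simp only [Finset.mem_erase, Finset.mem_insert]
          constructor
          · rintro ⟨h1, h2 | h2⟩
            · exact Or.inl h2
            · exact Or.inr ⟨h1, h2⟩
          · rintro (rfl | ⟨h1, h2⟩)
            · exact ⟨hxy', Or.inl rfl⟩
            · exact ⟨h1, Or.inr h2⟩
        have hPk : ((insert x J) ∩ S).card = k := by
          have : (insert x J) ∩ S = J ∩ S := by
            ext u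
            simp only [Finset.mem_inter, Finset.mem_insert]
            constructor
            · rintro ⟨rfl | h, h'⟩
              · exact absurd h' hxS
              · exact ⟨h, h'⟩
            · rintro ⟨h, h'⟩; exact ⟨Or.inr h, h'⟩
          rw [this]; exact hJk
        have hcons := hC (insert x J) y x hP hPk (Finset.mem_insert_of_mem hyJ)
          (Finset.mem_insert_self _ _) hyS hxS
        unfold Cons at hcons
        rw [e1, e2] at hcons
        exact hcons

end Pool.Agent.R3M.H27
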