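import Pool.Agent.R3M.Kit

/-!
# R3M, module KTH: Kotlar-Ziv for three types
-/

set_option autoImplicit false

namespace Pool.Agent.R3M.H27

open Pool.Agent.R3M Pool.Agent.R3M.Kit

theorem kth_count {α : Type} [DecidableEq α] {m lo w : ℕ} (J : Finset (Fin m)) (x : Fin m → α)
    (S : Finset α) (h : ∀ i ∈ J, x i ∈ S → lo ≤ (i : ℕ) ∧ (i : ℕ) < lo + w) :
    ((J.image x) ∩ S).card ≤ w := by
  have h1 : (J.image x) ∩ S ⊆ (J.filter (fun i : Fin m => lo ≤ (i : ℕ) ∧ (i : ℕ) < lo + w)).image x := by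
    intro u hu
    obtain ⟨hu1, hu2⟩ := Finset.mem_inter.mp hu
    obtain ⟨i, hi, rfl⟩ := Finset.mem_image.mp hu1
    exact Finset.mem_image.mpr ⟨i, Finset.mem_filter.mpr ⟨hi, h i hi hu2⟩, rfl⟩
  have h2 : ((J.filter (fun i : Fin m => lo ≤ (i : ℕ) ∧ (i : ℕ) < lo + w)).image
      (fun i : Fin m => (i : ℕ))) ⊆ Finset.Ico lo (lo + w) := by
    intro u hu
    obtain ⟨i, hi, rfl⟩ := Finset.mem_image.mp hu
    exact Finset.mem_Ico.mpr (Finset.mem_filter.mp hi).2
  have h3 := Finset.card_le_card h2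
  rw [Finset.card_image_of_injective _ Fin.val_injective, Nat.card_Ico] at h3
  have h4 := (Finset.card_le_card h1).trans Finset.card_image_le
  omega

theorem kth (hKzt : KztStmt) : KthStmt := by
  intro α _ M N q S T U b a c hS hT hU h1 h2 h3 hq
  by_cases hq0 : q = 0
  · subst hq0
    exact ⟨∅, ⟨M.emp, N.emp, by simp⟩, Finset.empty_subset _, by simp, by simp, by simp⟩
  let F : Fin (b + a + c) → Finset α := fun i =>
    if (i : ℕ) < b then S else if (i : ℕ) < b + a then T else U
  have F1 : ∀ i : Fin (b + a + c), (i : ℕ) < b → F i = S := fun i hi => if_pos hi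
  have F2 : ∀ i : Fin (b + a + c), ¬ (i : ℕ) < b → (i : ℕ) < b + a → F i = T := fun i hi hj => by
    show (if (i : ℕ) < b then S else if (i : ℕ) < b + a then T else U) = T
    rw [if_neg hi, if_pos hj]
  have F3 : ∀ i : Fin (b + a + c), ¬ (i : ℕ) < b → ¬ (i : ℕ) < b + a → F i = U :=
    fun i hi hj => by
    show (if (i : ℕ) < b then S else if (i : ℕ) < b + a then T else U) = U
    rw [if_neg hi, if_neg hj]
  have hF : ∀ i, CI M N q (F i) := by
    intro i
    by_cases hi : (i : ℕ) < b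
    · rw [F1 i hi]; exact hS
    · by_cases hj : (i : ℕ) < b + a
      · rw [F2 i hi hj]; exact hT
      · rw [F3 i hi hj]; exact hU
  obtain ⟨J, x, hJ, hinj, hx, hM, hN⟩ := hKzt α M N q (b + a + c) F (Nat.pos_of_ne_zero hq0) hF hq
  refine ⟨J.image x, ⟨hM, hN, ?_⟩, ?_, ?_, ?_, ?_⟩
  · rw [Finset.card_image_of_injOn hinj, hJ]
  · intro u hu
    obtain ⟨i, hi, rfl⟩ := Finset.mem_image.mp hu
    have hxi := hx i hi
    by_cases hi : (i : ℕ) < b
    · rw [F1 i hi] at hxi
      exact Finset.mem_union_left _ (Finset.mem_union_left _ hxi)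
    · by_cases hj : (i : ℕ) < b + a
      · rw [F2 i hi hj] at hxi
        exact Finset.mem_union_left _ (Finset.mem_union_right _ hxi)
      · rw [F3 i hi hj] at hxi
        exact Finset.mem_union_right _ hxi
  · refine kth_count (lo := 0) J x S (fun i hi hS' => ⟨Nat.zero_le _, ?_⟩)
    have hxi := hx i hi
    by_contra hlt
    have hi' : ¬ (i : ℕ) < b := by omega
    by_cases hj : (i : ℕ) < b + a
    · rw [F2 i hi' hj] at hxi
      exact Finset.disjoint_left.mp h1 hS' hxi
    · rw [F3 i hi' hj] at hxi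
      exact Finset.disjoint_left.mp h2 hS' hxi
  · refine kth_count (lo := b) J x T (fun i hi hT' => ?_)
    have hxi := hx i hi
    by_cases hi' : (i : ℕ) < b
    · rw [F1 i hi'] at hxi
      exact absurd hT' (Finset.disjoint_left.mp h1 hxi)
    · by_cases hj : (i : ℕ) < b + a
      · exact ⟨by omega, hj⟩
      · rw [F3 i hi' hj] at hxi
        exact absurd hxi (Finset.disjoint_left.mp h3 hT')
  · refine kth_count (lo := b + a) J x U (fun i hi hU' => ?_)
    have hxi := hx i hi
    have hlt := i.isLt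
    by_cases hi' : (i : ℕ) < b
    · rw [F1 i hi'] at hxi
      exact absurd hU' (Finset.disjoint_left.mp h2 hxi)
    · by_cases hj : (i : ℕ) < b + a
      · rw [F2 i hi' hj] at hxi
        exact absurd hU' (Finset.disjoint_left.mp h3 hxi)
      · exact ⟨by omega, by omega⟩

end Pool.Agent.R3M.H27
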