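import Pool.Agent.R3M.Kit

/-!
# R3M, module UPE: existence of an `S`-increasing exchange
-/

set_option autoImplicit false

namespace Pool.Agent.R3M.H27

open Pool.Agent.R3M Pool.Agent.R3M.Kit

theorem upe (hLci : LciStmt) : UpeStmt := by
  intro α _ M N n S I hS hI hns
  obtain ⟨e, heS, heI, hM⟩ := M.aug hI.1 hS.cS.1 (by rw [hI.2.2, hS.cS.2.2]; omega)
  by_cases hN : N.Ind (insert e I)
  · obtain ⟨f, hfI, hfS⟩ := Finset.not_subset.mp hns
    refine ⟨e, f, heS, heI, hfI, hfS, M.sub hM ?_, N.sub hN ?_⟩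
    · exact Finset.insert_subset_insert e (Finset.erase_subset f I)
    · exact Finset.insert_subset_insert e (Finset.erase_subset f I)
  · obtain ⟨f, hfI, hfS, hf⟩ := hLci α N I S e hI.2.1 hS.cS.2.1 heS heI hN
    exact ⟨e, f, heS, heI, hfI, hfS,
      M.sub hM (Finset.insert_subset_insert e (Finset.erase_subset f I)), hf⟩

end Pool.Agent.R3M.H27
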